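import Mathlib

set_option autoImplicit false
open Filter Topology Finset Metric
open scoped ContDiff

namespace Pool.Agent.H.MP_ca9574_an

section Smooth
variable {E : Type} [NormedAddCommGroup E] [NormedSpace ℂ E]

lemma tsum_ball (f : ℕ → E → ℂ) (hf : ∀ j, ContDiff ℂ ∞ (f j)) (v : ℕ → ℕ → ℝ)
    (hv : ∀ k, Summable (v k))
    (hb : ∀ k j z, ‖z‖ ≤ 1 → ‖iteratedFDeriv ℂ k (f j) z‖ ≤ v k j) (k : ℕ) :
    ∀ z ∈ ball (0 : E) 1,
      iteratedFDeriv ℂ k (fun z => ∑' j, f j z) z = ∑' j, iteratedFDeriv ℂ k (f j) z := by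
  induction k with
  | zero =>
    intro z hz
    simp only [iteratedFDeriv_zero_eq_comp, Function.comp]
    exact (continuousMultilinearCurryFin0 ℂ E ℂ).symm.toContinuousLinearEquiv.map_tsum
  | succ k ih =>
    intro z hz
    have h1 : iteratedFDeriv ℂ k (fun z => ∑' j, f j z) =ᶠ[𝓝 z]
        fun z => ∑' j, iteratedFDeriv ℂ k (f j) z := by
      filter_upwards [isOpen_ball.mem_nhds hz] with y hy using ih y hy
    have h2 := hasFDerivAt_tsum_of_isPreconnected (f := fun j => iteratedFDeriv ℂ k (f j))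
      (f' := fun j x => fderiv ℂ (iteratedFDeriv ℂ k (f j)) x) (hv (k + 1)) isOpen_ball
      (convex_ball (0 : E) 1).isPreconnected
      (fun j x _ => (((hf j).differentiable_iteratedFDeriv (m := k)
        (by exact_mod_cast ENat.natCast_lt_top k)) x).hasFDerivAt)
      (fun j x hx => by
        rw [norm_fderiv_iteratedFDeriv]; exact hb _ _ _ (mem_ball_zero_iff.1 hx).le)
      hz (Summable.of_norm_bounded (hv k) fun j => hb _ _ _ (mem_ball_zero_iff.1 hz).le) hz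
    simp only [iteratedFDeriv_succ_eq_comp_left, Function.comp]
    rw [h1.fderiv_eq, h2.fderiv]
    exact (continuousMultilinearCurryLeftEquiv ℂ (fun _ : Fin (k + 1) => E)
      ℂ).symm.toContinuousLinearEquiv.map_tsum

lemma diff_ball (f : ℕ → E → ℂ) (hf : ∀ j, ContDiff ℂ ∞ (f j)) (v : ℕ → ℕ → ℝ)
    (hv : ∀ k, Summable (v k))
    (hb : ∀ k j z, ‖z‖ ≤ 1 → ‖iteratedFDeriv ℂ k (f j) z‖ ≤ v k j) :
    DifferentiableOn ℂ (fun z => ∑' j, f j z) (ball 0 1) := by
  intro z hz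
  refine (hasFDerivAt_tsum_of_isPreconnected (f := f)
      (f' := fun j x => fderiv ℂ (f j) x) (hv 1) isOpen_ball
      (convex_ball (0 : E) 1).isPreconnected
      (fun j x _ => (((hf j).differentiable (by simp)) x).hasFDerivAt)
      (fun j x hx => by
        rw [← norm_iteratedFDeriv_one]; exact hb _ _ _ (mem_ball_zero_iff.1 hx).le)
      hz (Summable.of_norm_bounded (hv 0) fun j => ?_) hz).differentiableAt.differentiableWithinAt
  simpa using hb 0 j z (mem_ball_zero_iff.1 hz).le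
end Smooth

lemma itd (e α β : ℂ) (N n : ℕ) : iteratedDeriv n (fun ζ => e * (α + β * ζ) ^ N)
    = fun ζ => e * N.descFactorial n * β ^ n * (α + β * ζ) ^ (N - n) := by
  induction n with
  | zero => simp
  | succ n ih =>
    rw [iteratedDeriv_succ, ih]
    funext ζ
    have h := ((((hasDerivAt_id ζ).const_mul β).const_add α).fun_pow (N - n)).const_mul
      (e * N.descFactorial n * β ^ n)
    refine h.deriv.trans ?_
    rw [Nat.descFactorial_succ, Nat.sub_sub]
    simp only [id]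
    push_cast
    ring

lemma pow_bound {E : Type} [NormedAddCommGroup E] [NormedSpace ℂ E] (l : E →L[ℂ] ℂ)
    (hl : ‖l‖ ≤ 1) (e : ℝ) (he : 0 ≤ e) (N k : ℕ) (z : E) (hz : ‖z‖ ≤ 1) :
    ‖iteratedFDeriv ℂ k (fun z => (e : ℂ) * (l z) ^ N) z‖ ≤ e * N ^ k := by
  have h1 : (fun z => (e : ℂ) * (l z) ^ N) = (fun ζ : ℂ => (e : ℂ) * (0 + 1 * ζ) ^ N) ∘ l := by
    funext z; simp
  rw [h1, l.iteratedFDeriv_comp_right (n := ∞) (by fun_prop) z (by exact_mod_cast le_top)]
  refine (ContinuousMultilinearMap.norm_compContinuousLinearMap_le _ _).trans ?_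
  rw [norm_iteratedFDeriv_eq_norm_iteratedDeriv, itd]
  have h2 : ‖l z‖ ≤ 1 := (l.le_opNorm z).trans (mul_le_one₀ hl (norm_nonneg _) hz)
  have h3 : (N.descFactorial k : ℝ) ≤ N ^ k := by exact_mod_cast Nat.descFactorial_le_pow N k
  have h4 : ∏ _i : Fin k, ‖l‖ ≤ 1 := prod_le_one (fun _ _ => norm_nonneg _) fun _ _ => hl
  simp only [norm_mul, norm_pow, zero_add, one_mul, one_pow, mul_one, Complex.norm_real,
    Complex.norm_natCast, Real.norm_of_nonneg he]
  calc _ ≤ e * N ^ k * 1 * 1 := by gcongr; exact pow_le_one₀ (norm_nonneg _) h2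
    _ = _ := by ring

lemma step (j N' : ℕ) : ∃ N : ℕ, N' < N ∧
    ((N:ℝ) + 1) * (N ^ N' + j * (N ^ j * 4 ^ N' * 2 ^ (j + 1))) < (1 + 1 / (j + 1)) ^ N := by
  have hr : (1:ℝ) < 1 + 1 / (j + 1) := by
    have : (0:ℝ) < 1 / (j + 1) := by positivity
    linarith
  set C : ℝ := 2 * (1 + j * (4 ^ N' * 2 ^ (j + 1))) with hC
  have hC0 : 0 < C := by positivity
  have h1 := (tendsto_pow_const_div_const_pow_of_one_lt (N' + j + 1) hr).eventually
    (gt_mem_nhds (show (0:ℝ) < 1 / C by positivity))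
  obtain ⟨N, hN1, hN2⟩ := (h1.and (eventually_gt_atTop N')).exists
  refine ⟨N, hN2, ?_⟩
  have h2 : (1:ℝ) ≤ N := by exact_mod_cast (show 1 ≤ N by omega)
  rw [div_lt_div_iff₀ (by positivity) hC0, one_mul] at hN1
  refine lt_of_le_of_lt ?_ hN1
  have h3 : (N:ℝ) ^ N' ≤ N ^ (N' + j) := pow_le_pow_right₀ h2 (by omega)
  have h4 : (N:ℝ) ^ j ≤ N ^ (N' + j) := pow_le_pow_right₀ h2 (by omega)
  calc _ ≤ ((N:ℝ) + N) * (N ^ (N' + j) + j * (N ^ (N' + j) * 4 ^ N' * 2 ^ (j + 1))) := by gcongr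
    _ = _ := by rw [hC]; ring

noncomputable def Nn : ℕ → ℕ
  | 0 => 0
  | j + 1 => (step j (Nn j)).choose

lemma Nn_lt (j : ℕ) : Nn j < Nn (j + 1) := (step j (Nn j)).choose_spec.1
lemma Nn_mono : Monotone Nn := (strictMono_nat_of_lt_succ Nn_lt).monotone

noncomputable def inv (j : ℕ) : ℝ := (Nn (j + 1) : ℝ) ^ j * 4 ^ Nn j * 2 ^ (j + 1)

lemma Nn_big (j : ℕ) : ((Nn (j + 1) : ℝ) + 1) * (Nn (j + 1) ^ Nn j + j * inv j)
    < (1 + 1 / (j + 1)) ^ Nn (j + 1) := (step j (Nn j)).choose_spec.2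

lemma Nn_one (j : ℕ) : (1:ℝ) ≤ Nn (j + 1) := by
  have := Nn_lt j
  exact_mod_cast (show 1 ≤ Nn (j + 1) by omega)

lemma inv_pos (j : ℕ) : 0 < inv j := by have := Nn_one j; unfold inv; positivity

noncomputable def ep (j : ℕ) : ℝ := (inv j)⁻¹

lemma ep_pos (j : ℕ) : 0 < ep j := _root_.inv_pos.2 (inv_pos j)

lemma ep_sum (k : ℕ) : Summable fun j => ep j * (Nn (j + 1) : ℝ) ^ k := by
  refine Summable.of_norm_bounded_eventually_nat summable_geometric_two ?_
  filter_upwards [eventually_ge_atTop k] with j hj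
  have h1 := Nn_one j
  have h0 := ep_pos j
  rw [Real.norm_of_nonneg (by positivity), ep, inv_mul_le_iff₀ (inv_pos j), inv, one_div_pow]
  have h2 : (Nn (j + 1) : ℝ) ^ k ≤ Nn (j + 1) ^ j := pow_le_pow_right₀ h1 hj
  have h3 : (1:ℝ) ≤ 4 ^ Nn j := one_le_pow₀ (by norm_num)
  have e : (Nn (j + 1) : ℝ) ^ j * 4 ^ Nn j * 2 ^ (j + 1) * (1 / 2 ^ j)
      = Nn (j + 1) ^ j * (2 * 4 ^ Nn j) := by field_simp; ring
  rw [e]
  exact h2.trans (le_mul_of_one_le_right (by positivity) (by linarith))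

lemma ep_tail (J j : ℕ) : ep (j + J) ≤ 1 / 4 ^ Nn J / 2 / 2 ^ j := by
  have h1 := Nn_one (j + J)
  rw [ep, div_div, div_div, one_div]
  refine inv_anti₀ (by positivity) ?_
  have h2 : (4:ℝ) ^ Nn J ≤ 4 ^ Nn (j + J) := pow_le_pow_right₀ (by norm_num) (Nn_mono (by omega))
  have h3 : (2:ℝ) ^ (j + 1) ≤ 2 ^ (j + J + 1) := pow_le_pow_right₀ (by norm_num) (by omega)
  have h4 : (1:ℝ) ≤ Nn (j + J + 1) ^ (j + J) := one_le_pow₀ h1
  calc _ = 1 * (4:ℝ) ^ Nn J * 2 ^ (j + 1) := by ring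
    _ ≤ _ := by unfold inv; gcongr

/-- the one-variable core -/
lemma core (α β : ℕ → ℂ) (hβ : ∀ j, ‖β j‖ ≤ 1)
    (hb : ∀ j ζ, ‖ζ‖ ≤ 1 → ‖α j + β j * ζ‖ ≤ 1) (s : ℂ) (δ : ℝ) (hδ : 0 < δ) (hδ1 : δ ≤ 1 / 2)
    (hs : ‖s‖ + δ ≤ 1) (η : ℝ) (hη : 0 < η)
    (hfr : ∃ᶠ j in atTop, 1 + η ≤ ‖α j + β j * s‖ + 2 * δ * ‖β j‖)
    (h : ℂ → ℂ) (hd : DifferentiableOn ℂ h (ball s (3 * δ)))
    (he : ∀ ζ ∈ ball s δ, h ζ = ∑' j, (ep j : ℂ) * (α j + β j * ζ) ^ Nn (j + 1)) : False := by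
  have hsub : closedBall s (2 * δ) ⊆ ball s (3 * δ) := closedBall_subset_ball (by linarith)
  obtain ⟨M, hM⟩ := (isCompact_closedBall s (2 * δ)).exists_bound_of_continuousOn
    (hd.continuousOn.mono hsub)
  have hM0 : 0 ≤ M := (norm_nonneg _).trans (hM s (mem_closedBall_self (by positivity)))
  have ev1 : ∀ᶠ j : ℕ in atTop, M + 1 ≤ j := tendsto_natCast_atTop_atTop.eventually_ge_atTop _
  have ev2 : ∀ᶠ j : ℕ in atTop, 1 / ((j:ℝ) + 1) ≤ η :=
    tendsto_one_div_add_atTop_nhds_zero_nat.eventually (ge_mem_nhds hη)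
  obtain ⟨J, hJ, hJ1, hJ2⟩ := (hfr.and_eventually (ev1.and ev2)).exists
  set g : ℕ → ℂ → ℂ := fun j ζ => (ep j : ℂ) * (α j + β j * ζ) ^ Nn (j + 1) with hg
  have gd : ∀ j, Differentiable ℂ (g j) := fun j => by simp only [hg]; fun_prop
  have gb : ∀ j ζ, ‖ζ‖ ≤ 1 → ‖g j ζ‖ ≤ ep j := by
    intro j ζ hζ
    simp only [hg, norm_mul, norm_pow, Complex.norm_real, Real.norm_of_nonneg (ep_pos j).le]
    exact mul_le_of_le_one_right (ep_pos j).le (pow_le_one₀ (norm_nonneg _) (hb j ζ hζ))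
  set N := Nn (J + 1) with hN
  set H : ℂ → ℂ := fun ζ => h ζ - ∑ j ∈ range (J + 1), g j ζ with hH
  have Hd : DifferentiableOn ℂ H (ball s (3 * δ)) :=
    hd.sub (Differentiable.fun_sum fun j _ => gd j).differentiableOn
  have Hb : ∀ ζ ∈ sphere s (δ / 2), ‖H ζ‖ ≤ 1 / 4 ^ N := by
    intro ζ hζ
    have h1 : ζ ∈ ball s δ := sphere_subset_ball (by linarith) hζ
    have h2 : ‖ζ‖ ≤ 1 := by
      have := norm_sub_norm_le ζ s
      rw [mem_ball_iff_norm] at h1
      linarith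
    have h3 : Summable fun j => g j ζ :=
      Summable.of_norm_bounded (by simpa using ep_sum 0) fun j => gb j ζ h2
    simp only [hH]
    rw [he ζ h1, ← h3.sum_add_tsum_nat_add (J + 1), add_sub_cancel_left]
    exact tsum_of_norm_bounded (hasSum_geometric_two' (1 / 4 ^ N))
      fun j => (gb _ ζ h2).trans (ep_tail (J + 1) j)
  have key : ∀ n, Nn J < n → n ≤ N →
      (2 * δ * ‖β J‖) ^ n * ‖α J + β J * s‖ ^ (N - n) * N.choose n ≤ J * inv J := by
    intro n hn1 hn2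
    have c1 := Complex.norm_iteratedDeriv_le_of_forall_mem_sphere_norm_le n
      (show 0 < 2 * δ by positivity) (hd.diffContOnCl_ball hsub)
      (fun z hz => hM z (sphere_subset_closedBall hz))
    have c2 := Complex.norm_iteratedDeriv_le_of_forall_mem_sphere_norm_le n
      (show 0 < δ / 2 by positivity)
      (Hd.diffContOnCl_ball (closedBall_subset_ball (by linarith))) Hb
    have hs3 : ball s (3 * δ) ∈ 𝓝 s := ball_mem_nhds s (by positivity)
    have e1 : iteratedDeriv n H s = iteratedDeriv n h s - iteratedDeriv n (g J) s := by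
      simp only [hH]
      rw [iteratedDeriv_fun_sub (hd.contDiffOn isOpen_ball |>.contDiffAt hs3)
        (Differentiable.fun_sum fun j _ => gd j).contDiff.contDiffAt,
        iteratedDeriv_fun_sum fun j _ => (gd j).contDiff.contDiffAt, sum_range_succ,
        sum_eq_zero, zero_add]
      intro j hj
      have : Nn (j + 1) < n := lt_of_le_of_lt (Nn_mono (mem_range.1 hj)) hn1
      simp only [hg]
      rw [itd, Nat.descFactorial_eq_zero_iff_lt.2 this]
      simp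
    have e2 : ‖iteratedDeriv n (g J) s‖
        = ep J * (n.factorial * N.choose n) * ‖β J‖ ^ n * ‖α J + β J * s‖ ^ (N - n) := by
      simp only [hg]
      rw [itd, Nat.descFactorial_eq_factorial_mul_choose]
      simp only [norm_mul, norm_pow, Complex.norm_real, Real.norm_of_nonneg (ep_pos J).le,
        Complex.norm_natCast, Nat.cast_mul, hN]
    have e3 : ‖iteratedDeriv n (g J) s‖ ≤ ‖iteratedDeriv n h s‖ + ‖iteratedDeriv n H s‖ := by
      rw [e1]
      simpa using norm_sub_le (iteratedDeriv n h s) (iteratedDeriv n h s - iteratedDeriv n (g J) s)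
    have f0 : (0:ℝ) < n.factorial := by exact_mod_cast n.factorial_pos
    have p0 : (0:ℝ) < (2 * δ) ^ n := by positivity
    have e4 : n.factorial * (1 / 4 ^ N) / (δ / 2) ^ n ≤ n.factorial * 1 / (2 * δ) ^ n := by
      rw [div_le_div_iff₀ (by positivity) p0, show 2 * δ = 4 * (δ / 2) by ring, mul_pow]
      have h4 : (4:ℝ) ^ n ≤ 4 ^ N := pow_le_pow_right₀ (by norm_num) hn2
      have h5 : 1 / (4:ℝ) ^ N * 4 ^ n ≤ 1 := by
        rw [one_div, inv_mul_le_iff₀ (by positivity)]; linarith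
      calc _ = n.factorial * (1 / (4:ℝ) ^ N * 4 ^ n) * (δ / 2) ^ n := by ring
        _ ≤ _ := by gcongr
    have e5 : ‖iteratedDeriv n (g J) s‖ ≤ n.factorial * J / (2 * δ) ^ n := by
      refine e3.trans ((add_le_add c1 (c2.trans e4)).trans ?_)
      rw [← add_div, ← mul_add]
      gcongr
    rw [e2, le_div_iff₀ p0] at e5
    have i0 := inv_pos J
    have e6 : (2 * δ * ‖β J‖) ^ n * ‖α J + β J * s‖ ^ (N - n) * N.choose n
        = ep J * (n.factorial * N.choose n) * ‖β J‖ ^ n * ‖α J + β J * s‖ ^ (N - n) * (2 * δ) ^ n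
          * (inv J / n.factorial) := by
      rw [ep, mul_pow]; field_simp
    rw [e6]
    calc _ ≤ n.factorial * J * (inv J / n.factorial) := by gcongr
      _ = _ := by field_simp
  have x1 : 2 * δ * ‖β J‖ ≤ 1 := mul_le_one₀ (by linarith) (norm_nonneg _) (hβ J)
  have y1 : ‖α J + β J * s‖ ≤ 1 := hb J s (by linarith)
  have i0 := inv_pos J
  have fin : (2 * δ * ‖β J‖ + ‖α J + β J * s‖) ^ N ≤ (N + 1) * (N ^ Nn J + J * inv J) := by
    rw [add_pow]
    refine (sum_le_card_nsmul _ _ ((N:ℝ) ^ Nn J + J * inv J) fun n hn => ?_).trans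
      (by rw [card_range, nsmul_eq_mul]; push_cast; exact le_rfl)
    by_cases hn1 : Nn J < n
    · have := key n hn1 (by have := mem_range.1 hn; omega)
      have : (0:ℝ) ≤ N ^ Nn J := by positivity
      linarith
    · have h1 : (N.choose n : ℝ) ≤ N ^ n := by exact_mod_cast Nat.choose_le_pow N n
      have h2 : (N:ℝ) ^ n ≤ N ^ Nn J := pow_le_pow_right₀ (Nn_one J) (by omega)
      have h3 : (0:ℝ) ≤ J * inv J := by positivity
      calc _ ≤ (1:ℝ) * 1 * N ^ Nn J := by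
            gcongr
            · exact pow_le_one₀ (by positivity) x1
            · exact pow_le_one₀ (by positivity) y1
            · exact h1.trans h2
        _ ≤ _ := by linarith
  have h1 := Nn_big J
  have h2 : (1 + 1 / ((J:ℝ) + 1)) ^ N ≤ (2 * δ * ‖β J‖ + ‖α J + β J * s‖) ^ N := by
    exact pow_le_pow_left₀ (by positivity) (by linarith) _
  linarith

section Main
variable (E : Type) [NormedAddCommGroup E] [InnerProductSpace ℂ E]
  [TopologicalSpace.SeparableSpace E]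

omit [InnerProductSpace ℂ E] in
lemma exists_seq : ∃ w : ℕ → E, (∀ j, ‖w j‖ ≤ 1) ∧
    ∀ x : E, ‖x‖ ≤ 1 → ∀ U ∈ 𝓝 x, ∃ᶠ j in atTop, w j ∈ U := by
  have : Nonempty (closedBall (0 : E) 1) := ⟨⟨0, by simp⟩⟩
  obtain ⟨d, hd⟩ := TopologicalSpace.exists_dense_seq (closedBall (0 : E) 1)
  refine ⟨fun j => (d j.unpair.1).1, fun j => mem_closedBall_zero_iff.1 (d _).2, ?_⟩
  intro x hx U hU
  obtain ⟨i, hi⟩ := hd.mem_nhds (continuous_subtype_val.continuousAt
    (x := (⟨x, mem_closedBall_zero_iff.2 hx⟩ : closedBall (0 : E) 1)) hU)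
  rw [frequently_atTop]
  intro m
  exact ⟨Nat.pair i m, Nat.right_le_pair i m, by simpa using hi⟩

theorem main : ∃ f : E → ℂ, DifferentiableOn ℂ f (ball 0 1) ∧ ContinuousOn f (closedBall 0 1) ∧
    (∀ k : ℕ, ∃ g : E → ContinuousMultilinearMap ℂ (fun _ : Fin k => E) ℂ,
      ContinuousOn g (closedBall 0 1) ∧ ∀ z ∈ ball (0 : E) 1, iteratedFDeriv ℂ k f z = g z) ∧
    ∀ a b : E, b ≠ 0 → (∀ τ : ℂ, ‖τ‖ = 1 → ‖a + τ • b‖ = 1) → ∀ τ : ℂ, ‖τ‖ = 1 →
      ¬ ∃ (c : ℂ) (r : ℝ) (h : ℂ → ℂ), τ ∈ ball c r ∧ DifferentiableOn ℂ h (ball c r) ∧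
        ∀ ζ ∈ ball c r, ‖ζ‖ < 1 → h ζ = f (a + ζ • b) := by
  obtain ⟨w, hw, hw2⟩ := exists_seq E
  set f : ℕ → E → ℂ := fun j z => (ep j : ℂ) * (innerSL ℂ (w j) z) ^ Nn (j + 1) with hf
  have fs : ∀ j, ContDiff ℂ ∞ (f j) := fun j => by simp only [hf]; fun_prop
  have fb : ∀ k j z, ‖z‖ ≤ 1 → ‖iteratedFDeriv ℂ k (f j) z‖ ≤ ep j * (Nn (j + 1) : ℝ) ^ k :=
    fun k j z hz => pow_bound _ (by simpa using hw j) _ (ep_pos j).le _ _ z hz
  refine ⟨fun z => ∑' j, f j z, diff_ball f fs _ ep_sum fb, ?_, fun k => ⟨_, ?_,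
    tsum_ball f fs _ ep_sum fb k⟩, ?_⟩
  · refine continuousOn_tsum (fun j => (fs j).continuous.continuousOn) (ep_sum 0) fun j z hz => ?_
    simpa using fb 0 j z (mem_closedBall_zero_iff.1 hz)
  · exact continuousOn_tsum (fun j => ((fs j).continuous_iteratedFDeriv
      (by exact_mod_cast le_top)).continuousOn) (ep_sum k)
      fun j z hz => fb k j z (mem_closedBall_zero_iff.1 hz)
  rintro a b hb0 hab τ hτ ⟨c, r, h, h1, h2, h3⟩
  have hcl : ∀ ζ : ℂ, ‖ζ‖ ≤ 1 → ‖a + ζ • b‖ ≤ 1 := by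
    intro ζ hζ
    refine Complex.norm_le_of_forall_mem_frontier_norm_le (U := ball (0:ℂ) 1)
      (f := fun ζ : ℂ => a + ζ • b) isBounded_ball
      (Differentiable.diffContOnCl (by fun_prop)) (fun z hz => ?_) ?_
    · rw [frontier_ball _ one_ne_zero] at hz
      exact (hab z (by simpa using hz)).le
    · rw [closure_ball _ one_ne_zero]; simpa using hζ
  have hbn : ‖b‖ ≤ 1 := by
    have e1 := hab 1 (by simp)
    have e2 := hab (-1) (by simp)
    have e3 := norm_sub_le (a + (1:ℂ) • b) (a + (-1:ℂ) • b)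
    have e4 : a + (1:ℂ) • b - (a + (-1:ℂ) • b) = (2:ℂ) • b := by module
    rw [e4, norm_smul, e1, e2] at e3
    simp at e3; linarith
  obtain ⟨ρ, hρ, hρ2⟩ := Metric.isOpen_iff.1 isOpen_ball τ h1
  set δ := min (ρ / 4) (1 / 2) with hδ
  have δ0 : 0 < δ := by positivity
  have δ1 : δ ≤ 1 / 2 := min_le_right _ _
  have δ2 : δ ≤ ρ / 4 := min_le_left _ _
  set s : ℂ := ((1 - δ : ℝ) : ℂ) * τ with hs
  have hsn : ‖s‖ = 1 - δ := by
    rw [hs, norm_mul, hτ, Complex.norm_real, Real.norm_of_nonneg (by linarith), mul_one]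
  have hst : ‖s - τ‖ = δ := by
    have : s - τ = ((-δ : ℝ) : ℂ) * τ := by rw [hs]; push_cast; ring
    rw [this, norm_mul, hτ]; simp [abs_of_pos δ0]
  have hsub : ball s (3 * δ) ⊆ ball c r := by
    refine Set.Subset.trans (ball_subset_ball' ?_) hρ2
    rw [dist_eq_norm, hst]; linarith
  set x := a + τ • b with hx
  have hx1 : ‖x‖ = 1 := hab τ hτ
  have hxx : inner ℂ x a + inner ℂ x b * τ = 1 := by
    have := (inner_eq_one_iff_of_norm_eq_one (𝕜 := ℂ) hx1 hx1).2 rfl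
    rw [← this]
    conv_rhs => rw [hx, inner_add_right, inner_smul_right, ← hx]
    ring
  have hβ : inner ℂ x b ≠ 0 := by
    intro h0
    have e1 : inner ℂ x (a + (-τ) • b) = 1 := by
      rw [inner_add_right, inner_smul_right, h0]
      rw [h0] at hxx
      simpa using hxx
    rw [inner_eq_one_iff_of_norm_eq_one hx1 (hab _ (by simpa using hτ))] at e1
    have e2 : ((2:ℂ) * τ) • b = 0 := by
      have : ((2:ℂ) * τ) • b = x - (a + (-τ) • b) := by rw [hx]; module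
      rw [this, ← e1, sub_self]
    have e3 : τ ≠ 0 := by rintro rfl; simp at hτ
    exact hb0 ((smul_eq_zero.1 e2).resolve_left (by simpa using e3))
  have hβ0 := norm_pos_iff.2 hβ
  refine core (fun j => inner ℂ (w j) a) (fun j => inner ℂ (w j) b) (fun j => ?_) (fun j ζ hζ => ?_)
    s δ δ0 δ1 (by linarith) (δ * ‖inner ℂ x b‖ / 2) (by positivity) ?_ h (h2.mono hsub) ?_
  · exact (norm_inner_le_norm _ _).trans (mul_le_one₀ (hw j) (norm_nonneg _) hbn)
  · have : inner ℂ (w j) a + inner ℂ (w j) b * ζ = inner ℂ (w j) (a + ζ • b) := by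
      rw [inner_add_right, inner_smul_right]; ring
    rw [this]
    exact (norm_inner_le_norm _ _).trans (mul_le_one₀ (hw j) (norm_nonneg _) (hcl ζ hζ))
  · have hc : Continuous fun y : E =>
        ‖inner ℂ y a + inner ℂ y b * s‖ + 2 * δ * ‖inner ℂ y b‖ := by fun_prop
    refine hw2 x hx1.le _ (hc.continuousAt.eventually (le_mem_nhds ?_))
    have e1 : inner ℂ x a + inner ℂ x b * s = 1 + inner ℂ x b * (s - τ) := by
      rw [← hxx]; ring
    have e2 := norm_sub_norm_le (1:ℂ) (-(inner ℂ x b * (s - τ)))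
    rw [norm_neg, norm_mul, hst, norm_one, sub_neg_eq_add] at e2
    beta_reduce
    rw [e1]
    nlinarith [mul_pos δ0 hβ0]
  · intro ζ hζ
    have h4 : ‖ζ‖ < 1 := by
      have := norm_sub_norm_le ζ s
      rw [mem_ball_iff_norm] at hζ
      linarith
    rw [h3 ζ (hsub (ball_subset_ball (by linarith) hζ)) h4]
    refine tsum_congr fun j => ?_
    simp only [hf, innerSL_apply_apply, inner_add_right, inner_smul_right]
    ring

end Main

end Pool.Agent.H.MP_ca9574_an
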